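import Pool.Agent.V1139.TD.Comb

/-!
# Passage to the completion
-/

set_option autoImplicit false
set_option linter.unusedSectionVars false

namespace Pool.Agent.V1139.TD

open Polynomial Cardinal

section closure

variable {k E : Type*} [Field k] [NormedField E] [Algebra k E]

theorem prod_ge {s : Multiset E} {c : ℝ} (hc : 0 ≤ c) (y : E) (h : ∀ β ∈ s, c ≤ ‖y - β‖) :
    c ^ (Multiset.card s) ≤ ‖((s.map fun a => X - C a).prod).eval y‖ := by
  induction s using Multiset.induction_on with
  | empty => simp
  | cons a s ih =>
    rw [Multiset.map_cons, Multiset.prod_cons, eval_mul, norm_mul, Multiset.card_cons, pow_succ']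
    have h1 : c ≤ ‖eval y (X - C a)‖ := by simpa using h a (Multiset.mem_cons_self a s)
    exact mul_le_mul h1 (ih fun β hβ => h β (Multiset.mem_cons_of_mem hβ)) (by positivity)
      (norm_nonneg _)

/-- The closure of an algebraically closed subfield is algebraically closed in `E`. -/
theorem infDist_eq_zero_of_isRoot [IsAlgClosed E] {T : Set E} {p : E[X]} (hp : p.Monic)
    (hpc : ∀ i, Metric.infDist (p.coeff i) (A k T : Set E) = 0) {y : E} (hy : p.IsRoot y) :
    Metric.infDist y (A k T : Set E) = 0 := by
  by_contra hne
  set c := Metric.infDist y (A k T : Set E) with hc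
  have hc0 : 0 < c := lt_of_le_of_ne Metric.infDist_nonneg (Ne.symm hne)
  set n := p.natDegree with hn
  have hn0 : n ≠ 0 := by
    intro h0
    have h1 : p = 1 := hp.natDegree_eq_zero.1 h0
    rw [h1] at hy
    simp at hy
  set B : ℝ := ∑ i ∈ Finset.range n, ‖y‖ ^ i with hB
  have hB0 : 0 < B := by
    rw [hB]
    have : (0 : ℝ) < ‖y‖ ^ 0 := by simp
    exact this.trans_le (Finset.single_le_sum (f := fun i => ‖y‖ ^ i)
      (fun i _ => by positivity) (Finset.mem_range.2 (Nat.pos_of_ne_zero hn0)))
  set ε : ℝ := c ^ n / (2 * B) with hε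
  have hε0 : 0 < ε := by positivity
  have hex : ∀ i, ∃ c' ∈ (A k T : Set E), dist (p.coeff i) c' < ε := fun i =>
    (Metric.infDist_lt_iff (nonempty_A T)).1 (by rw [hpc i]; exact hε0)
  choose c' hc' hcc' using hex
  set q : E[X] := ∑ i ∈ Finset.range n, C (c' i) * X ^ i with hq
  have hqdeg : q.degree < n := by
    rw [hq]
    refine (degree_sum_le _ _).trans_lt ?_
    refine (Finset.sup_lt_iff (WithBot.bot_lt_coe n)).2 ?_
    intro i hi
    exact (degree_C_mul_X_pow_le i _).trans_lt (WithBot.coe_lt_coe.2 (Finset.mem_range.1 hi))
  set f : E[X] := X ^ n + q with hf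
  have hfm : f.Monic := monic_X_pow_add hqdeg
  have hfdeg : f.natDegree = n := by
    rw [hf, natDegree_add_eq_left_of_degree_lt (by rwa [degree_X_pow]), natDegree_X_pow]
  have hfc : ∀ i, f.coeff i ∈ A k T := by
    intro i
    rw [hf, coeff_add, coeff_X_pow, hq, finsetSum_coeff]
    refine add_mem ?_ (sum_mem fun j _ => ?_)
    · split_ifs
      · exact one_mem _
      · exact zero_mem _
    · rw [coeff_C_mul, coeff_X_pow]
      split_ifs
      · rw [mul_one]; exact hc' j
      · rw [mul_zero]; exact zero_mem _
  have h1 : c ^ n ≤ ‖f.eval y‖ := by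
    have hs : f.Splits := IsAlgClosed.splits f
    have hcard : Multiset.card f.roots = n := by rw [splits_iff_card_roots.1 hs, hfdeg]
    have hfac : f = (f.roots.map fun a => X - C a).prod := by
      have := hs.eq_prod_roots
      rwa [hfm.leadingCoeff, C_1, one_mul] at this
    rw [hfac, ← hcard]
    refine prod_ge hc0.le y fun β hβ => ?_
    have hβ' : β ∈ A k T := root_mem_A hfm.ne_zero hfc ((mem_roots hfm.ne_zero).1 hβ)
    rw [← dist_eq_norm]
    exact Metric.infDist_le_dist_of_mem hβ'
  have h2 : ‖f.eval y‖ ≤ ε * B := by
    have h3 : f.eval y = ∑ i ∈ Finset.range n, (c' i - p.coeff i) * y ^ i := by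
      have h4 : p.eval y = 0 := hy
      rw [eval_eq_sum_range, Finset.sum_range_succ, ← hn] at h4
      have h5 : p.coeff n = 1 := hp.coeff_natDegree
      rw [h5, one_mul] at h4
      rw [hf, eval_add, eval_pow, eval_X, hq, eval_finsetSum]
      simp only [eval_mul, eval_C, eval_pow, eval_X, sub_mul, Finset.sum_sub_distrib]
      linear_combination h4
    rw [h3, hB, Finset.mul_sum]
    refine (norm_sum_le _ _).trans (Finset.sum_le_sum fun i _ => ?_)
    rw [norm_mul, norm_pow]
    gcongr
    rw [← dist_eq_norm, dist_comm]
    exact (hcc' i).le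
  have h6 : ε * B = c ^ n / 2 := by
    rw [hε]
    field_simp
  have h7 : 0 < c ^ n := by positivity
  linarith

end closure

section completion

variable {k K E : Type*} [NormedField k] [NormedField K] [NormedField E] [NormedAlgebra k K]
  [NormedAlgebra K E] [NormedAlgebra k E] [IsScalarTower k K E]

/-- If `K` is contained in the closure of the algebraically closed field `A k T` then `E` is. -/
theorem infDist_eq_zero_of_forall [IsAlgClosure K E] {T : Set E}
    (h : ∀ x : K, Metric.infDist (algebraMap K E x) (A k T : Set E) = 0) (y : E) :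
    Metric.infDist y (A k T : Set E) = 0 := by
  have : IsAlgClosed E := IsAlgClosure.isAlgClosed K
  have : Algebra.IsAlgebraic K E := IsAlgClosure.isAlgebraic
  have hint : IsIntegral K y := (Algebra.IsAlgebraic.isAlgebraic y).isIntegral
  refine infDist_eq_zero_of_isRoot (p := (minpoly K y).map (algebraMap K E))
    ((minpoly.monic hint).map _) (fun i => ?_) ?_
  · rw [coeff_map]
    exact h _
  · rw [IsRoot.def, eval_map, ← aeval_def]
    exact minpoly.aeval K y

/-- The elements of the completion of `E` which are algebraic over `k(T)`. -/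
theorem algebraic_completion [IsAlgClosed E] (T : Set E) :
    {y : UniformSpace.Completion E | IsAlgebraic (IntermediateField.adjoin k
      ((fun z : E => (z : UniformSpace.Completion E)) '' T)) y} =
    (fun z : E => (z : UniformSpace.Completion E)) '' (A k T : Set E) := by
  -- the inclusion as a homomorphism
  let φ : E →ₐ[k] UniformSpace.Completion E :=
    { UniformSpace.Completion.coeRingHom with
      commutes' := fun r => rfl }
  have hφ : ∀ z, φ z = (z : UniformSpace.Completion E) := fun z => rfl
  have hinj : Function.Injective φ := φ.toRingHom.injective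
  have himage : (fun z : E => (z : UniformSpace.Completion E)) '' T = φ '' T := rfl
  have hadj : IntermediateField.adjoin k (φ '' T) = (IntermediateField.adjoin k T).map φ :=
    (IntermediateField.adjoin_map k T φ).symm
  rw [himage]
  ext y
  simp only [Set.mem_ofPred_eq, Set.mem_image]
  constructor
  · rintro ⟨p, hp, hpy⟩
    -- lift the polynomial
    have hl : p.map (algebraMap (IntermediateField.adjoin k (φ '' T))
        (UniformSpace.Completion E)) ∈ lifts φ.toRingHom := by
      rw [lifts_iff_coeff_lifts]
      intro i
      rw [coeff_map]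
      have h1 : ((p.coeff i : IntermediateField.adjoin k (φ '' T)) :
          UniformSpace.Completion E) ∈ (IntermediateField.adjoin k T).map φ := by
        rw [← hadj]
        exact (p.coeff i).2
      obtain ⟨z, -, hz⟩ := h1
      exact ⟨z, hz⟩
    obtain ⟨g, hg⟩ := (mem_lifts _).1 hl
    have hg0 : g ≠ 0 := by
      rintro rfl
      rw [Polynomial.map_zero] at hg
      exact hp ((Polynomial.map_eq_zero_iff (algebraMap (IntermediateField.adjoin k (φ '' T))
        (UniformSpace.Completion E)).injective).1 hg.symm)
    have hgc : ∀ i, g.coeff i ∈ A k T := by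
      intro i
      apply adjoin_le_A
      have h1 : φ (g.coeff i) ∈ (IntermediateField.adjoin k T).map φ := by
        have h2 : φ.toRingHom (g.coeff i) = (p.coeff i : UniformSpace.Completion E) := by
          rw [← coeff_map, hg, coeff_map]
          rfl
        have h3 : φ (g.coeff i) = (p.coeff i : UniformSpace.Completion E) := h2
        rw [h3, ← hadj]
        exact (p.coeff i).2
      obtain ⟨z, hz, hz'⟩ := h1
      have : z = g.coeff i := hinj hz'
      rw [← this]
      exact hz
    have hroot : (g.map φ.toRingHom).eval y = 0 := by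
      rw [hg, eval_map, ← aeval_def, hpy]
    have hs : g.Splits := IsAlgClosed.splits g
    have hs' : (g.map φ.toRingHom).Splits := hs.map _
    have hmem : y ∈ (g.map φ.toRingHom).roots :=
      (mem_roots ((Polynomial.map_ne_zero_iff φ.toRingHom.injective).2 hg0)).2 hroot
    rw [Splits.roots_map hs, Multiset.mem_map] at hmem
    obtain ⟨z, hz, hzy⟩ := hmem
    exact ⟨z, root_mem_A hg0 hgc ((mem_roots hg0).1 hz), hzy⟩
  · rintro ⟨z, hz, rfl⟩
    obtain ⟨p, hp, hpy⟩ := mem_A.1 hz
    have hl : (p.map (algebraMap (IntermediateField.adjoin k T) E)).map φ.toRingHom ∈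
        lifts (algebraMap (IntermediateField.adjoin k (φ '' T))
          (UniformSpace.Completion E)) := by
      rw [lifts_iff_coeff_lifts]
      intro i
      rw [coeff_map, coeff_map]
      refine ⟨⟨φ (p.coeff i), ?_⟩, rfl⟩
      rw [hadj]
      exact ⟨_, (p.coeff i).2, rfl⟩
    obtain ⟨g, hg⟩ := (mem_lifts _).1 hl
    refine ⟨g, ?_, ?_⟩
    · rintro rfl
      rw [Polynomial.map_zero] at hg
      have h1 := (Polynomial.map_eq_zero_iff φ.toRingHom.injective).1 hg.symm
      exact hp ((Polynomial.map_eq_zero_iff
        (algebraMap (IntermediateField.adjoin k T) E).injective).1 h1)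
    · rw [aeval_def, ← eval_map, hg, ← hφ z]
      have h1 : (p.map (algebraMap (IntermediateField.adjoin k T) E)).eval z = 0 := by
        rw [eval_map, ← aeval_def, hpy]
      have h2 : ((p.map (algebraMap (IntermediateField.adjoin k T) E)).map φ.toRingHom).eval
          (φ.toRingHom z) = φ.toRingHom 0 := by
        rw [eval_map, eval₂_hom, h1]
      rw [map_zero] at h2
      exact h2

/-- `z ∈ E` is in the closure of (the image of) `B` in the completion iff its distance is `0`. -/
theorem mem_closure_image_iff {B : Set E} (hB : B.Nonempty) (z : E) :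
    (z : UniformSpace.Completion E) ∈
      closure ((fun z : E => (z : UniformSpace.Completion E)) '' B) ↔
      Metric.infDist z B = 0 := by
  rw [← Metric.mem_closure_iff_infDist_zero hB]
  have h := (UniformSpace.Completion.isDenseInducing_coe (α := E)).isInducing
  rw [h.closure_eq_preimage_closure_image B]
  rfl

end completion

end Pool.Agent.V1139.TD
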