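import Pool.Agent.V1139.TD.Sym

/-!
# Maximal free families and the iteration of length `ω₁`
-/

set_option autoImplicit false
set_option linter.unusedSectionVars false

namespace Pool.Agent.V1139.TD

open Polynomial Cardinal

universe v

variable {k : Type*} {E : Type*} {K : Type v} [Field k] [NormedField E] [Algebra k E]

variable (k) in
/-- the distance of `x` to the algebraic closure of `k(T)` -/
noncomputable def D (e : K → E) (x : E) (T : Set K) : ℝ :=
  Metric.infDist x (A k (e '' T) : Set E)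

theorem D_nonneg (e : K → E) (x : E) (T : Set K) : 0 ≤ D k e x T := Metric.infDist_nonneg

theorem D_anti (e : K → E) (x : E) {T T' : Set K} (h : T ⊆ T') : D k e x T' ≤ D k e x T :=
  Metric.infDist_le_infDist_of_subset (A_mono (Set.image_mono h)) (nonempty_A _)

theorem D_mem (e : K → E) {x : K} {T : Set K} (h : x ∈ T) : D k e (e x) T = 0 :=
  Metric.infDist_zero_of_mem (subset_A _ (Set.mem_image_of_mem e h))

variable (k) in
/-- `S` is free over `T` -/
def Free (e : K → E) (T S : Set K) : Prop :=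
  ∀ b ∈ S, 0 < D k e (e b) T ∧ D k e (e b) T ≤ D k e (e b) (T ∪ (S \ {b}))

variable (k) in
/-- `S` is independent -/
def Ind (e : K → E) (S : Set K) : Prop := ∀ b ∈ S, 0 < D k e (e b) (S \ {b})

theorem Free.ind {e : K → E} {T S : Set K} (h : Free k e T S) : Ind k e S := fun b hb =>
  (h b hb).1.trans_le ((h b hb).2.trans (D_anti e _ Set.subset_union_right))

theorem free_insert [IsUltrametricDist E] [IsAlgClosed E] {e : K → E} {T S : Set K}
    (h : Free k e T S) {x : K} (hx : 0 < D k e (e x) (T ∪ S))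
    (hx' : D k e (e x) T ≤ D k e (e x) (T ∪ S)) : Free k e T (insert x S) := by
  have hxS : x ∉ S := fun hxS => hx.ne' (D_mem e (Or.inr hxS))
  rintro b (rfl | hb)
  · refine ⟨hx.trans_le (D_anti e _ Set.subset_union_left), ?_⟩
    have : insert b S \ {b} = S := by
      ext z
      simp only [Set.mem_sdiff, Set.mem_insert_iff, Set.mem_singleton_iff]
      constructor
      · rintro ⟨rfl | h1, h2⟩
        · exact absurd rfl h2
        · exact h1
      · intro h1
        exact ⟨Or.inr h1, fun h2 => hxS (h2 ▸ h1)⟩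
    rw [this]
    exact hx'
  · refine ⟨(h b hb).1, ?_⟩
    have hbx : b ≠ x := fun h1 => hxS (h1 ▸ hb)
    have hset : e '' (T ∪ (insert x S \ {b})) = e '' (T ∪ (S \ {b})) ∪ {e x} := by
      have : T ∪ (insert x S \ {b}) = (T ∪ (S \ {b})) ∪ {x} := by
        ext z
        simp only [Set.mem_union, Set.mem_sdiff, Set.mem_insert_iff, Set.mem_singleton_iff]
        constructor
        · rintro (h1 | ⟨rfl | h1, h2⟩)
          · exact Or.inl (Or.inl h1)
          · exact Or.inr rfl
          · exact Or.inl (Or.inr ⟨h1, h2⟩)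
        · rintro ((h1 | ⟨h1, h2⟩) | rfl)
          · exact Or.inl h1
          · exact Or.inr ⟨Or.inr h1, h2⟩
          · exact Or.inr ⟨Or.inl rfl, fun h3 => hbx h3.symm⟩
      rw [this, Set.image_union, Set.image_singleton]
    have hsub : T ∪ (S \ {b}) ⊆ T ∪ S := Set.union_subset_union_right T Set.sdiff_subset
    have key : ∀ y ∈ (A k (e '' (T ∪ (insert x S \ {b}))) : Set E),
        D k e (e b) (T ∪ (S \ {b})) ≤ dist (e b) y := by
      intro y hy
      rw [hset] at hy
      rw [dist_eq_norm]
      refine symmetry (V := e '' (T ∪ S)) (Set.image_mono hsub) hx ?_ ?_ hy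
      · exact (D_anti e (e x) Set.subset_union_left).trans hx'
      · exact subset_A _ (Set.mem_image_of_mem e (Or.inr hb))
    refine (h b hb).2.trans ?_
    exact (Metric.le_infDist (nonempty_A _)).2 fun {y} hy => key y hy

/-- a finite subset of the union of a chain is contained in a member of the chain -/
theorem chain_finset {α : Type*} {c : Set (Set α)} (hc : IsChain (· ⊆ ·) c) (hne : c.Nonempty)
    (s : Set α) (hs : s.Finite) (h : s ⊆ ⋃₀ c) : ∃ t ∈ c, s ⊆ t := by
  exact (hc.directedOn).exists_mem_subset_of_finite_of_subset_sUnion hne hs h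

theorem exists_maximal (e : K → E) (T : Set K) : ∃ S : Set K, Maximal (Free k e T) S := by
  apply zorn_subset
  intro c hc hchain
  by_cases hne : c.Nonempty
  swap
  · refine ⟨∅, ?_, ?_⟩
    · intro b hb
      exact absurd hb (Set.notMem_empty b)
    · intro s hs
      exact absurd ⟨s, hs⟩ hne
  refine ⟨⋃₀ c, ?_, fun s hs => Set.subset_sUnion_of_mem hs⟩
  intro b hb
  obtain ⟨S₀, hS₀, hbS₀⟩ := Set.mem_sUnion.1 hb
  refine ⟨(hc hS₀ b hbS₀).1, ?_⟩
  refine (Metric.le_infDist (nonempty_A _)).2 fun {y} hy => ?_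
  obtain ⟨s, hs, hys⟩ := A_finset hy
  obtain ⟨s', hs', hss'⟩ : ∃ s' : Set K, s'.Finite ∧ (s' ⊆ T ∪ (⋃₀ c \ {b}) ∧ e '' s' = s) := by
    obtain ⟨u, hu, hu'⟩ := (Set.subset_image_iff).1 hs
    have := Set.exists_subset_bijOn u e
    obtain ⟨w, hw, hw'⟩ := this
    refine ⟨w, ?_, hw.trans hu, ?_⟩
    · exact Set.Finite.of_finite_image (by rw [hw'.image_eq, hu']; exact s.finite_toSet)
        hw'.injOn
    · rw [hw'.image_eq, hu']
  obtain ⟨hs1, hs2⟩ := hss'
  -- the part of `s'` in the union
  have hfin : (insert b (s' ∩ ⋃₀ c)).Finite := (hs'.subset Set.inter_subset_left).insert b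
  obtain ⟨t, ht, hst⟩ := chain_finset hchain hne _ hfin (by
    rintro z (rfl | hz)
    · exact hb
    · exact hz.2)
  have hbt : b ∈ t := hst (Set.mem_insert _ _)
  have h1 := (hc ht b hbt).2
  refine h1.trans (Metric.infDist_le_dist_of_mem ?_)
  refine A_mono ?_ hys
  rw [← hs2]
  apply Set.image_mono
  intro z hz
  rcases hs1 hz with h2 | h2
  · exact Or.inl h2
  · exact Or.inr ⟨hst (Set.mem_insert_of_mem _ ⟨hz, h2.1⟩), h2.2⟩

variable (k) in
/-- a maximal family which is free over `T` -/
noncomputable def M (e : K → E) (T : Set K) : Set K := (exists_maximal (k := k) e T).choose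

theorem M_spec (e : K → E) (T : Set K) : Maximal (Free k e T) (M k e T) :=
  (exists_maximal (k := k) e T).choose_spec

theorem D_lt [IsUltrametricDist E] [IsAlgClosed E] (e : K → E) (T : Set K) {x : K}
    (hx : 0 < D k e (e x) (T ∪ M k e T)) : D k e (e x) (T ∪ M k e T) < D k e (e x) T := by
  by_contra h
  rw [not_lt] at h
  have h1 := free_insert (M_spec e T).prop hx h
  have h2 : x ∈ M k e T := (M_spec e T).le_of_ge h1 (Set.subset_insert _ _) (Set.mem_insert _ _)
  exact hx.ne' (D_mem e (Or.inr h2))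

/-- **Main lemma.** If all independent subsets have at most `κ ≥ ℵ₁` elements there is a set `G` with
at most `κ` elements such that all `e x` are in the closure of the algebraic closure of `k(G)`. -/
theorem exists_generating [IsUltrametricDist E] [IsAlgClosed E] (e : K → E) {κ : Cardinal.{v}}
    (hκ : ℵ₁ ≤ κ) (h : ∀ S : Set K, Ind k e S → #S ≤ κ) :
    ∃ G : Set K, #G ≤ κ ∧ ∀ x : K, D k e (e x) G = 0 := by
  set I : Type v := (Cardinal.aleph.{v} 1).ord.ToType with hI
  have hIcard : #I = ℵ₁ := by rw [hI, mk_ord_toType]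
  have hκ0 : ℵ₀ ≤ κ := (aleph0_le_aleph 1).trans hκ
  have hcount : ∀ i : I, #(Set.Iio i) ≤ ℵ₀ := by
    intro i
    have h1 : #(Set.Iio i) < ℵ₁ := by
      have h0 := Cardinal.mk_Iio_lt i (by rw [hIcard]; exact (Ordinal.type_toType _).symm)
      rwa [hIcard] at h0
    have h2 : #(Set.Iio i) < Order.succ ℵ₀ := h1.trans_le (by rw [succ_aleph0])
    exact Order.lt_succ_iff.1 h2
  -- the recursion
  set T : I → Set K := fun i => WellFoundedLT.fix (motive := fun _ : I => Set K)
    (fun i rec => ⋃ j : Set.Iio i, (rec j.1 j.2 ∪ M k e (rec j.1 j.2))) i with hT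
  have hTi : ∀ i, T i = ⋃ j : Set.Iio i, (T j.1 ∪ M k e (T j.1)) := by
    intro i
    rw [hT]
    exact WellFoundedLT.fix_eq _ i
  have hM : ∀ S : Set K, #(M k e S) ≤ κ := fun S => h _ (M_spec e S).prop.ind
  have hcard : ∀ i, #(T i) ≤ κ := by
    intro i
    induction i using WellFoundedLT.induction with
    | _ i ih =>
      rw [hTi]
      refine (mk_iUnion_le _).trans ?_
      refine mul_le_of_le hκ0 ((hcount i).trans hκ0) ?_
      apply ciSup_le'
      intro j
      exact (mk_union_le _ _).trans (add_le_of_le hκ0 (ih j.1 j.2) (hM _))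
  refine ⟨⋃ i, (T i ∪ M k e (T i)), ?_, ?_⟩
  · refine (mk_iUnion_le _).trans ?_
    refine mul_le_of_le hκ0 (hIcard.le.trans hκ) ?_
    apply ciSup_le'
    intro i
    exact (mk_union_le _ _).trans (add_le_of_le hκ0 (hcard i) (hM _))
  · intro x
    by_contra hne
    have hpos : 0 < D k e (e x) (⋃ i, (T i ∪ M k e (T i))) :=
      lt_of_le_of_ne (D_nonneg e _ _) (Ne.symm hne)
    have hlt : ∀ i, D k e (e x) (T i ∪ M k e (T i)) < D k e (e x) (T i) := fun i =>
      D_lt e (T i) (hpos.trans_le (D_anti e _ (Set.subset_iUnion (fun i => T i ∪ M k e (T i)) i)))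
    have hle : ∀ i j, i < j → D k e (e x) (T j) ≤ D k e (e x) (T i ∪ M k e (T i)) := by
      intro i j hij
      apply D_anti
      rw [hTi j]
      exact Set.subset_iUnion (fun j' : Set.Iio j => T j'.1 ∪ M k e (T j'.1)) ⟨i, hij⟩
    choose q hq1 hq2 using fun i => exists_rat_btwn (hlt i)
    have hanti : StrictAnti q := by
      intro i j hij
      have : ((q j : ℚ) : ℝ) < q i := (hq2 j).trans_le ((hle i j hij).trans (hq1 i).le)
      exact_mod_cast this
    have h1 : Cardinal.lift.{0} #I ≤ Cardinal.lift.{v} #ℚ :=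
      Cardinal.lift_mk_le'.2 ⟨⟨q, hanti.injective⟩⟩
    rw [Cardinal.lift_uzero, hIcard, mk_eq_aleph0, lift_aleph0] at h1
    exact absurd h1 (not_le.2 (by rw [← aleph_zero]; exact aleph_lt_aleph.2 zero_lt_one))

end Pool.Agent.V1139.TD
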