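import Mathlib

/-!
# Distances to algebraically closed subfields of an ultrametric field

Core estimate, by means of Gauss norms.
-/

set_option autoImplicit false
set_option linter.unusedSectionVars false

namespace Pool.Agent.V1139.TD

open Polynomial

variable {E : Type*} [NormedField E] [IsUltrametricDist E]

/-- the absolute value of a normed field -/
noncomputable abbrev av (E : Type*) [NormedField E] : AbsoluteValue E ℝ :=
  NormedField.toAbsoluteValue E

omit [IsUltrametricDist E] in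
theorem av_apply (x : E) : av E x = ‖x‖ := rfl

theorem av_na : IsNonarchimedean (av E) := by
  intro x y
  exact IsUltrametricDist.norm_add_le_max x y

/-- the Gauss norm of radius `r` -/
noncomputable abbrev G (r : ℝ) (f : E[X]) : ℝ := f.gaussNorm (av E) r

theorem G_mul {r : ℝ} (hr : 0 < r) (f g : E[X]) : G r (f * g) = G r f * G r g :=
  gaussNorm_mul av_na hr f g

theorem coeff_le_G {r : ℝ} (hr : 0 ≤ r) (f : E[X]) (i : ℕ) : ‖f.coeff i‖ * r ^ i ≤ G r f :=
  f.le_gaussNorm (av E) hr i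

theorem G_le {r : ℝ} {f : E[X]} {B : ℝ} (h : ∀ i, ‖f.coeff i‖ * r ^ i ≤ B) : G r f ≤ B := by
  obtain ⟨i, hi⟩ := exists_eq_gaussNorm (av E) r f
  rw [G, hi]
  exact h i

theorem G_pos {r : ℝ} (hr : 0 < r) {f : E[X]} (hf : f ≠ 0) : 0 < G r f := by
  have h0 : 0 ≤ G r f := f.gaussNorm_nonneg (av E) hr.le
  rcases h0.lt_or_eq with h | h
  · exact h
  · exfalso
    apply hf
    exact (gaussNorm_eq_zero_iff (av E) f (fun x hx => (AbsoluteValue.eq_zero _).1 hx) hr).1 h.symm

theorem G_X_sub_C_le {r : ℝ} (hr : 0 ≤ r) (β : E) : G r (X - C β) ≤ max r ‖β‖ := by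
  apply G_le
  intro i
  rcases i with _ | _ | i
  · simp
  · simp [coeff_X, coeff_C]
  · simp [coeff_X, coeff_C, hr]

theorem le_G_X_sub_C {r : ℝ} (hr : 0 ≤ r) (β : E) : max r ‖β‖ ≤ G r (X - C β) := by
  apply max_le
  · have := coeff_le_G hr (X - C β) 1
    simpa [coeff_C] using this
  · have := coeff_le_G hr (X - C β) 0
    simpa using this

theorem norm_sum_le_of {ι : Type*} (s : Finset ι) (f : ι → E) {B : ℝ} (hB : 0 ≤ B)
    (h : ∀ i ∈ s, ‖f i‖ ≤ B) : ‖∑ i ∈ s, f i‖ ≤ B := by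
  classical
  induction s using Finset.induction_on with
  | empty => simpa using hB
  | insert a s ha ih =>
    rw [Finset.sum_insert ha]
    exact (IsUltrametricDist.norm_add_le_max _ _).trans (max_le (h a (Finset.mem_insert_self a s))
      (ih fun i hi => h i (Finset.mem_insert_of_mem hi)))

theorem norm_eval_le_G {r : ℝ} (hr : 0 ≤ r) (f : E[X]) {x : E} (hx : ‖x‖ ≤ r) :
    ‖f.eval x‖ ≤ G r f := by
  rw [eval_eq_sum_range]
  apply norm_sum_le_of
  · exact f.gaussNorm_nonneg (av E) hr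
  · intro i _
    rw [norm_mul, norm_pow]
    refine le_trans ?_ (coeff_le_G hr f i)
    gcongr

/-- A polynomial with all its roots in `L`. -/
theorem G_le_of_splits {L : Set E} {x : E} {r T : ℝ} (hr : 0 < r) (hT : 1 ≤ T)
    (hL : ∀ β ∈ L, max r ‖β‖ ≤ T * ‖x - β‖) (f : E[X]) (hf : f.Splits)
    (hroots : ∀ β ∈ f.roots, β ∈ L) : G r f ≤ T ^ f.natDegree * ‖f.eval x‖ := by
  have key : ∀ s : Multiset E, (∀ β ∈ s, β ∈ L) →
      G r (s.map fun a => X - C a).prod ≤
        T ^ (Multiset.card s) * ‖((s.map fun a => X - C a).prod).eval x‖ := by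
    intro s
    induction s using Multiset.induction_on with
    | empty =>
      intro _
      simp only [Multiset.map_zero, Multiset.prod_zero, Multiset.card_zero, pow_zero, eval_one,
        norm_one, mul_one]
      have : (1 : E[X]) = C 1 := by simp
      rw [this, G, gaussNorm_C]
      simp
    | cons a s ih =>
      intro h
      rw [Multiset.map_cons, Multiset.prod_cons, G_mul hr, eval_mul, norm_mul, Multiset.card_cons]
      have h1 : G r (X - C a) ≤ T * ‖x - a‖ :=
        (G_X_sub_C_le hr.le a).trans (hL a (h a (Multiset.mem_cons_self a s)))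
      have h2 := ih fun β hβ => h β (Multiset.mem_cons_of_mem hβ)
      have h3 : ‖eval x (X - C a)‖ = ‖x - a‖ := by simp
      rw [h3]
      calc _ ≤ (T * ‖x - a‖) * (T ^ (Multiset.card s) *
            ‖((s.map fun a => X - C a).prod).eval x‖) := by
            apply mul_le_mul h1 h2
            · exact Polynomial.gaussNorm_nonneg (av E) _ hr.le
            · positivity
        _ = _ := by ring
  by_cases h0 : f = 0
  · subst h0
    simp [G]
  have hfac : f = C f.leadingCoeff * (f.roots.map fun a => X - C a).prod :=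
    hf.eq_prod_roots
  have hcard : Multiset.card f.roots = f.natDegree := (splits_iff_card_roots.1 hf)
  have h1 := key f.roots hroots
  rw [hcard] at h1
  have h2 : G r f = ‖f.leadingCoeff‖ * G r (f.roots.map fun a => X - C a).prod := by
    conv_lhs => rw [hfac]
    rw [G_mul hr, G, gaussNorm_C]
    rfl
  have h3 : ‖f.eval x‖ = ‖f.leadingCoeff‖ *
      ‖((f.roots.map fun a => X - C a).prod).eval x‖ := by
    conv_lhs => rw [hfac]
    rw [eval_mul, norm_mul, eval_C]
  rw [h2, h3]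
  calc _ ≤ ‖f.leadingCoeff‖ * (T ^ f.natDegree *
        ‖((f.roots.map fun a => X - C a).prod).eval x‖) := by gcongr
    _ = _ := by ring

/-- **Core estimate.** `F ⊆ L` are sets of elements such that the polynomials over `F`, `L` have
their roots in `F`, `L`. -/
theorem core [IsAlgClosed E] {F L : Subfield E}
    (hF : ∀ f : E[X], f ≠ 0 → (∀ i, f.coeff i ∈ F) → ∀ β, f.IsRoot β → β ∈ F)
    (hL : ∀ f : E[X], f ≠ 0 → (∀ i, f.coeff i ∈ L) → ∀ β, f.IsRoot β → β ∈ L)
    (hFL : F ≤ L) {x b : E} {T : ℝ} (hT : 1 ≤ T) (hx0 : x ≠ 0) (hb0 : b ≠ 0) (hb : b ∈ L)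
    (hxL : ∀ β ∈ L, max ‖x‖ ‖β‖ ≤ T * ‖x - β‖) (hbF : ∀ β ∈ F, max ‖b‖ ‖β‖ ≤ T * ‖b - β‖)
    (Q : E[X][X]) (hQ : ∀ i j, (Q.coeff j).coeff i ∈ F)
    (hQx : Q.map (evalRingHom x) ≠ 0) {y : E} (hy : (Q.map (evalRingHom x)).IsRoot y)
    {dX dY : ℕ} (hdX : ∀ i j, dX < i → (Q.coeff j).coeff i = 0) (hdY : Q.natDegree ≤ dY) :
    ‖b‖ ≤ T ^ (dX + dY) * ‖b - y‖ := by
  have hr : 0 < ‖x‖ := norm_pos_iff.2 hx0
  have hs : 0 < ‖b‖ := norm_pos_iff.2 hb0
  have hT0 : 0 < T := lt_of_lt_of_le one_pos hT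
  set f : E[X] := Q.eval (C b) with hf
  have hfc : ∀ i, f.coeff i = ∑ j ∈ Finset.range (dY + 1), (Q.coeff j).coeff i * b ^ j := by
    intro i
    rw [hf, eval_eq_sum_range' (Nat.lt_succ_of_le hdY), finsetSum_coeff]
    refine Finset.sum_congr rfl fun j _ => ?_
    rw [← C_pow, coeff_mul_C]
  have hfL : ∀ i, f.coeff i ∈ L := by
    intro i
    rw [hfc]
    exact sum_mem fun j _ => mul_mem (hFL (hQ i j)) (pow_mem hb j)
  have hfdeg : f.natDegree ≤ dX := by
    rw [natDegree_le_iff_coeff_eq_zero]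
    intro i hi
    rw [hfc]
    exact Finset.sum_eq_zero fun j _ => by rw [hdX i j hi, zero_mul]
  set p : E[X] := Q.map (evalRingHom x) with hp
  have hpb : p.eval b = f.eval x := by
    rw [hp, hf, eval_map, eval₂_eq_sum_range, eval_eq_sum_range (p := Q), eval_finsetSum]
    refine Finset.sum_congr rfl fun j _ => ?_
    simp
  -- the polynomial `f`
  have hf1 : G ‖x‖ f ≤ T ^ dX * ‖f.eval x‖ := by
    by_cases h0 : f = 0
    · rw [h0]; simp [G]
    refine (G_le_of_splits (L := (L : Set E)) hr hT hxL f (IsAlgClosed.splits f) ?_).trans ?_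
    · intro β hβ
      exact hL f h0 hfL β ((mem_roots h0).1 hβ)
    · gcongr
  -- the polynomials `h i`
  have hh : ∀ i j, ‖(Q.coeff j).coeff i‖ * ‖b‖ ^ j ≤ T ^ dY * ‖f.coeff i‖ := by
    intro i j
    set h : E[X] := ∑ j ∈ Finset.range (dY + 1), C ((Q.coeff j).coeff i) * X ^ j with hh
    have hc : ∀ j, h.coeff j = (Q.coeff j).coeff i := by
      intro j
      rw [hh, finsetSum_coeff]
      simp only [coeff_C_mul, coeff_X_pow, mul_ite, mul_one, mul_zero]
      rw [Finset.sum_ite_eq]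
      split_ifs with h1
      · rfl
      · rw [Finset.mem_range, not_lt] at h1
        rw [coeff_eq_zero_of_natDegree_lt (p := Q) (by omega), coeff_zero]
    have heval : h.eval b = f.coeff i := by
      rw [hfc, hh, eval_finsetSum]
      refine Finset.sum_congr rfl fun j _ => by simp
    have hdeg : h.natDegree ≤ dY := by
      rw [natDegree_le_iff_coeff_eq_zero]
      intro j hj
      rw [hc, coeff_eq_zero_of_natDegree_lt (p := Q) (by omega), coeff_zero]
    by_cases h0 : h = 0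
    · rw [← hc, h0, coeff_zero, norm_zero, zero_mul]
      positivity
    have h2 := G_le_of_splits (L := (F : Set E)) hs hT hbF h (IsAlgClosed.splits h) (by
      intro β hβ
      exact hF h h0 (fun j => by rw [hc]; exact hQ i j) β ((mem_roots h0).1 hβ))
    rw [← hc, ← heval]
    refine (coeff_le_G hs.le h j).trans (h2.trans ?_)
    gcongr
  -- all coefficients
  have hg : ∀ i j, ‖(Q.coeff j).coeff i‖ * ‖x‖ ^ i * ‖b‖ ^ j ≤ T ^ (dX + dY) * ‖f.eval x‖ := by
    intro i j
    calc ‖(Q.coeff j).coeff i‖ * ‖x‖ ^ i * ‖b‖ ^ j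
        = (‖(Q.coeff j).coeff i‖ * ‖b‖ ^ j) * ‖x‖ ^ i := by ring
      _ ≤ (T ^ dY * ‖f.coeff i‖) * ‖x‖ ^ i :=
          mul_le_mul_of_nonneg_right (hh i j) (by positivity)
      _ = T ^ dY * (‖f.coeff i‖ * ‖x‖ ^ i) := by ring
      _ ≤ T ^ dY * (T ^ dX * ‖f.eval x‖) :=
          mul_le_mul_of_nonneg_left ((coeff_le_G hr.le f i).trans hf1) (by positivity)
      _ = _ := by ring
  have hGp : G ‖b‖ p ≤ T ^ (dX + dY) * ‖p.eval b‖ := by
    apply G_le
    intro j
    rw [hpb, hp, coeff_map, coe_evalRingHom, eval_eq_sum_range]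
    have hnn : 0 ≤ T ^ (dX + dY) * ‖f.eval x‖ := by positivity
    have : ‖∑ i ∈ Finset.range ((Q.coeff j).natDegree + 1), (Q.coeff j).coeff i * x ^ i‖ ≤
        T ^ (dX + dY) * ‖f.eval x‖ / ‖b‖ ^ j := by
      apply norm_sum_le_of
      · positivity
      · intro i _
        rw [le_div_iff₀ (by positivity), norm_mul, norm_pow]
        exact hg i j
    rwa [le_div_iff₀ (by positivity)] at this
  obtain ⟨q, hq⟩ := dvd_iff_isRoot.2 hy
  have hq0 : q ≠ 0 := by
    rintro rfl
    exact hQx (by rw [hq, mul_zero])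
  have hGq : 0 < G ‖b‖ q := G_pos hs hq0
  have h1 : ‖b‖ * G ‖b‖ q ≤ G ‖b‖ p := by
    rw [hq, G_mul hs]
    gcongr
    exact (le_max_left _ _).trans (le_G_X_sub_C hs.le y)
  have h2 : ‖p.eval b‖ ≤ ‖b - y‖ * G ‖b‖ q := by
    rw [hq, eval_mul, norm_mul]
    simp only [eval_sub, eval_X, eval_C]
    gcongr
    exact norm_eval_le_G hs.le q le_rfl
  have h3 : ‖b‖ * G ‖b‖ q ≤ (T ^ (dX + dY) * ‖b - y‖) * G ‖b‖ q := by
    calc _ ≤ _ := h1
      _ ≤ _ := hGp
      _ ≤ T ^ (dX + dY) * (‖b - y‖ * G ‖b‖ q) := by gcongr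
      _ = _ := by ring
  exact le_of_mul_le_mul_right h3 hGq

end Pool.Agent.V1139.TD
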