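import Pool.Agent.V1139.TD.Core

/-!
# Algebraic closures of generated subfields, and the symmetry lemma
-/

set_option autoImplicit false
set_option linter.unusedSectionVars false

namespace Pool.Agent.V1139.TD

open Polynomial
open scoped IntermediateField.algebraAdjoinAdjoin

variable (k : Type*) {E : Type*} [Field k] [NormedField E] [Algebra k E]

/-- the algebraic closure of `k(T)` in `E` -/
noncomputable def A (T : Set E) : IntermediateField k E :=
  (algebraicClosure (IntermediateField.adjoin k T) E).restrictScalars k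

variable {k}

theorem mem_A {T : Set E} {y : E} : y ∈ A k T ↔ IsAlgebraic (IntermediateField.adjoin k T) y :=
  mem_algebraicClosure_iff

theorem adjoin_le_A (T : Set E) : IntermediateField.adjoin k T ≤ A k T := fun y hy =>
  mem_A.2 (isAlgebraic_algebraMap (⟨y, hy⟩ : IntermediateField.adjoin k T))

theorem subset_A (T : Set E) : T ⊆ A k T :=
  (IntermediateField.subset_adjoin k T).trans (adjoin_le_A T)

/-- elements which are roots of polynomials over `A k T` are in `A k T` -/
theorem root_mem_A {T : Set E} {f : E[X]} (hf : f ≠ 0) (hc : ∀ i, f.coeff i ∈ A k T) {β : E}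
    (hβ : f.IsRoot β) : β ∈ A k T := by
  have h1 : IsAlgebraic (algebraicClosure (IntermediateField.adjoin k T) E) β := by
    have hl : f ∈ lifts (algebraMap (algebraicClosure (IntermediateField.adjoin k T) E) E) := by
      rw [lifts_iff_coeff_lifts]
      intro i
      exact ⟨⟨f.coeff i, hc i⟩, rfl⟩
    obtain ⟨g, hg⟩ := (mem_lifts _).1 hl
    refine ⟨g, ?_, ?_⟩
    · rintro rfl
      exact hf (by rw [← hg]; simp)
    · rw [aeval_def, ← eval_map, hg]
      exact hβ
  have h2 : β ∈ algebraicClosure (algebraicClosure (IntermediateField.adjoin k T) E) E :=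
    mem_algebraicClosure_iff.2 h1
  rw [algebraicClosure.algebraicClosure_eq_bot, IntermediateField.mem_bot] at h2
  obtain ⟨z, rfl⟩ := h2
  exact z.2

theorem A_le {T T' : Set E} (h : T ⊆ A k T') : A k T ≤ A k T' := by
  intro y hy
  have h1 : IntermediateField.adjoin k T ≤ A k T' := IntermediateField.adjoin_le_iff.2 h
  obtain ⟨p, hp, hpy⟩ := mem_A.1 hy
  refine root_mem_A (f := p.map (algebraMap (IntermediateField.adjoin k T) E)) ?_ ?_ ?_
  · exact (Polynomial.map_ne_zero_iff (algebraMap (IntermediateField.adjoin k T) E).injective).2 hp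
  · intro i
    rw [coeff_map]
    exact h1 (p.coeff i).2
  · rw [IsRoot.def, eval_map, ← aeval_def, hpy]

theorem A_mono {T T' : Set E} (h : T ⊆ T') : A k T ≤ A k T' := A_le (h.trans (subset_A T'))

theorem A_finset {T : Set E} {y : E} (hy : y ∈ A k T) :
    ∃ s : Finset E, (s : Set E) ⊆ T ∧ y ∈ A k (s : Set E) := by
  classical
  obtain ⟨p, hp, hpy⟩ := mem_A.1 hy
  have hc : ∀ i, ∃ s : Finset E, (s : Set E) ⊆ T ∧
      ((p.coeff i : IntermediateField.adjoin k T) : E) ∈
        IntermediateField.adjoin k (s : Set E) := fun i =>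
    IntermediateField.exists_finset_of_mem_adjoin (p.coeff i).2
  choose s hs hs' using hc
  refine ⟨(Finset.range (p.natDegree + 1)).biUnion s, ?_, ?_⟩
  · intro z hz
    simp only [Finset.coe_biUnion, Set.mem_iUnion] at hz
    obtain ⟨i, -, hi⟩ := hz
    exact hs i hi
  · refine root_mem_A (f := p.map (algebraMap (IntermediateField.adjoin k T) E)) ?_ ?_ ?_
    · exact (Polynomial.map_ne_zero_iff
        (algebraMap (IntermediateField.adjoin k T) E).injective).2 hp
    · intro i
      rw [coeff_map]
      by_cases hi : i ∈ Finset.range (p.natDegree + 1)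
      · apply adjoin_le_A
        refine IntermediateField.adjoin.mono k _ _ ?_ (hs' i)
        intro z hz
        simp only [Finset.coe_biUnion, Set.mem_iUnion]
        exact ⟨i, hi, hz⟩
      · rw [coeff_eq_zero_of_natDegree_lt (by simpa using hi), map_zero]
        exact zero_mem _
    · rw [IsRoot.def, eval_map, ← aeval_def, hpy]

/-- polynomial equation over `A k U` and `x` -/
theorem exists_poly {U : Set E} {x y : E} (hy : y ∈ A k (U ∪ {x})) :
    ∃ P : (A k U)[X][X], P.map (aeval x : (A k U)[X] →ₐ[A k U] E).toRingHom ≠ 0 ∧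
      (P.map (aeval x : (A k U)[X] →ₐ[A k U] E).toRingHom).IsRoot y := by
  have h1 : IsAlgebraic (IntermediateField.adjoin (A k U) {x}) y := by
    have h2 : IntermediateField.adjoin k (U ∪ {x}) ≤
        (IntermediateField.adjoin (A k U) {x}).restrictScalars k := by
      rw [IntermediateField.adjoin_le_iff]
      rintro z (hz | hz)
      · have : algebraMap (A k U) E ⟨z, subset_A U hz⟩ ∈
            IntermediateField.adjoin (A k U) {x} := IntermediateField.algebraMap_mem _ _
        exact this
      · exact IntermediateField.subset_adjoin (A k U) {x} hz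
    obtain ⟨p, hp, hpy⟩ := mem_A.1 hy
    have hl : p.map (algebraMap (IntermediateField.adjoin k (U ∪ {x})) E) ∈
        lifts (algebraMap (IntermediateField.adjoin (A k U) {x}) E) := by
      rw [lifts_iff_coeff_lifts]
      intro i
      rw [coeff_map]
      exact ⟨⟨_, h2 (p.coeff i).2⟩, rfl⟩
    obtain ⟨g, hg⟩ := (mem_lifts _).1 hl
    refine ⟨g, ?_, ?_⟩
    · rintro rfl
      rw [Polynomial.map_zero] at hg
      exact hp ((Polynomial.map_eq_zero_iff
        (algebraMap (IntermediateField.adjoin k (U ∪ {x})) E).injective).1 hg.symm)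
    · rw [aeval_def, ← eval_map, hg, eval_map, ← aeval_def, hpy]
  have h3 : IsAlgebraic (Algebra.adjoin (A k U) {x}) y := by
    exact (IsFractionRing.isAlgebraic_iff (Algebra.adjoin (A k U) {x})
      (IntermediateField.adjoin (A k U) {x}) E).2 h1
  obtain ⟨p, hp, hpy⟩ := h3
  have hl : p.map (algebraMap (Algebra.adjoin (A k U) {x}) E) ∈
      lifts (aeval x : (A k U)[X] →ₐ[A k U] E).toRingHom := by
    rw [lifts_iff_coeff_lifts]
    intro i
    rw [coeff_map]
    have : ((p.coeff i : Algebra.adjoin (A k U) {x}) : E) ∈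
        (aeval x : (A k U)[X] →ₐ[A k U] E).range :=
      (Algebra.adjoin_singleton_eq_range_aeval (A k U) x) ▸ (p.coeff i).2
    exact this
  obtain ⟨P, hP⟩ := (mem_lifts _).1 hl
  have hinj : Function.Injective (algebraMap (Algebra.adjoin (A k U) {x}) E) :=
    Subtype.val_injective
  refine ⟨P, ?_, ?_⟩
  · rw [hP]
    exact (Polynomial.map_ne_zero_iff hinj).2 hp
  · rw [hP, IsRoot.def, eval_map, ← aeval_def, hpy]

theorem nonempty_A (T : Set E) : (A k T : Set E).Nonempty := ⟨0, zero_mem _⟩

/-- degree bound for the coefficients of a translated polynomial -/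
theorem natDegree_coeff_taylor_le {F : Type*} [Field F] (R : F[X][X]) {d : ℕ}
    (h : ∀ j, (R.coeff j).natDegree ≤ d) (c : F) (j : ℕ) :
    ((taylor (C c) R).coeff j).natDegree ≤ d := by
  rw [taylor_coeff, eval_eq_sum_range]
  refine natDegree_sum_le_of_forall_le _ _ fun i _ => ?_
  rw [hasseDeriv_coeff, ← C_pow]
  refine (natDegree_mul_C_le _ _).trans ?_
  rw [← C_eq_natCast]
  exact (natDegree_C_mul_le _ _).trans (h _)

theorem approx [IsUltrametricDist E] {F L : Set E} {x a : E} {T ρ : ℝ} (hT : 1 ≤ T)
    (hL : ∀ z ∈ L, z + a ∈ L) (hρL : ∀ β ∈ L, ρ ≤ ‖x - β‖) (ha : ‖x - a‖ ≤ T * ρ) :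
    ∀ β ∈ L, max ‖x - a‖ ‖β‖ ≤ T * ‖(x - a) - β‖ := by
  intro β hβ
  have h1 : ρ ≤ ‖x - (β + a)‖ := hρL _ (hL β hβ)
  have h2 : x - (β + a) = x - a - β := by ring
  rw [h2] at h1
  have h3 : ‖x - a‖ ≤ T * ‖x - a - β‖ := ha.trans (by gcongr)
  have h4 : ‖β‖ ≤ max ‖x - a‖ ‖x - a - β‖ := by
    have : β = (x - a) - (x - a - β) := by ring
    calc ‖β‖ = ‖(x - a) + -(x - a - β)‖ := by rw [← sub_eq_add_neg, ← this]
      _ ≤ max ‖x - a‖ ‖-(x - a - β)‖ := IsUltrametricDist.norm_add_le_max _ _
      _ = _ := by rw [norm_neg]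
  refine max_le h3 (h4.trans (max_le h3 ?_))
  exact le_mul_of_one_le_left (norm_nonneg _) hT

/-- **Symmetry.** If the distance of `x` to `L = A k V` is the distance to `F = A k U`, `U ⊆ V`, then
the distance of `b ∈ L` to the algebraic closure of `F(x)` is the distance of `b` to `F`. -/
theorem symmetry [IsUltrametricDist E] [IsAlgClosed E] {U V : Set E} (hUV : U ⊆ V) {x b y : E}
    (hx : 0 < Metric.infDist x (A k V : Set E))
    (hx' : Metric.infDist x (A k U : Set E) ≤ Metric.infDist x (A k V : Set E))
    (hb : b ∈ A k V) (hy : y ∈ A k (U ∪ {x})) :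
    Metric.infDist b (A k U : Set E) ≤ ‖b - y‖ := by
  set D := Metric.infDist b (A k U : Set E) with hD
  set ρ := Metric.infDist x (A k V : Set E) with hρ
  rcases (Metric.infDist_nonneg (x := b) (s := (A k U : Set E))).eq_or_lt with h0 | hD0
  · rw [hD, ← h0]
    exact norm_nonneg _
  rw [← hD] at hD0
  obtain ⟨P, hP, hPy⟩ := exists_poly hy
  set φ : (A k U)[X] →+* E := (aeval x : (A k U)[X] →ₐ[A k U] E).toRingHom with hφ
  obtain ⟨dX, hdX⟩ : ∃ dX : ℕ, ∀ j, (P.coeff j).natDegree ≤ dX := by
    refine ⟨P.support.sup fun j => (P.coeff j).natDegree, fun j => ?_⟩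
    by_cases hj : j ∈ P.support
    · exact Finset.le_sup (f := fun j => (P.coeff j).natDegree) hj
    · rw [notMem_support_iff.1 hj, natDegree_zero]
      exact Nat.zero_le _
  set N := dX + P.natDegree with hN
  have key : ∀ T : ℝ, 1 < T → D ≤ T ^ N * ‖b - y‖ := by
    intro T hT
    have hρ' : Metric.infDist x (A k U : Set E) < T * ρ :=
      lt_of_le_of_lt hx' ((lt_mul_iff_one_lt_left hx).2 hT)
    obtain ⟨a, ha, hxa⟩ := (Metric.infDist_lt_iff (nonempty_A U)).1 hρ'
    have hD' : D < T * D := (lt_mul_iff_one_lt_left hD0).2 hT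
    obtain ⟨a', ha', hba⟩ := (Metric.infDist_lt_iff (nonempty_A U)).1 hD'
    rw [dist_eq_norm] at hxa hba
    have hFL : A k U ≤ A k V := A_mono hUV
    -- the translated polynomial over `F`
    set aF : A k U := ⟨a, ha⟩ with haF
    set aF' : A k U := ⟨a', ha'⟩ with haF'
    set R : (A k U)[X][X] := P.map (taylorAlgHom aF).toRingHom with hR
    set QF : (A k U)[X][X] := taylor (C aF') R with hQF
    set Q : E[X][X] := QF.map (mapRingHom (algebraMap (A k U) E)) with hQ
    have hRdeg : ∀ j, (R.coeff j).natDegree ≤ dX := by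
      intro j
      rw [hR, coeff_map]
      have : ((taylorAlgHom aF).toRingHom (P.coeff j)).natDegree = (P.coeff j).natDegree :=
        natDegree_taylor _ _
      rw [this]
      exact hdX j
    have hQc : ∀ i j, (Q.coeff j).coeff i = ((QF.coeff j).coeff i : E) := by
      intro i j
      rw [hQ, coeff_map, coe_mapRingHom, coeff_map]
      rfl
    have hcomp : ((evalRingHom (x - a)).comp (mapRingHom (algebraMap (A k U) E))).comp
        (taylorAlgHom aF).toRingHom = φ := by
      apply Polynomial.ringHom_ext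
      · intro c
        simp [hφ]
      · simp [hφ, haF]
    have hQx : Q.map (evalRingHom (x - a)) = taylor a' (P.map φ) := by
      rw [hQ, Polynomial.map_map, hQF, map_taylor, hR, Polynomial.map_map, hcomp]
      congr 2
      simp [haF']
    have hne : taylor a' (P.map φ) ≠ 0 := by
      intro h
      apply hP
      have := (taylor_injective a') (h.trans (map_zero _).symm)
      exact this
    have h := core (F := (A k U).toSubfield) (L := (A k V).toSubfield) (x := x - a) (b := b - a')
      (T := T)
      (fun f hf hc β hβ => root_mem_A hf hc hβ) (fun f hf hc β hβ => root_mem_A hf hc hβ)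
      (fun z hz => hFL hz) hT.le ?_ ?_ ?_ ?_ ?_ Q ?_ ?_ (y := y - a') ?_ (dX := dX)
      (dY := P.natDegree) ?_ ?_
    · have h1 : D ≤ ‖b - a'‖ := by
        rw [← dist_eq_norm]
        exact Metric.infDist_le_dist_of_mem ha'
      have h2 : b - a' - (y - a') = b - y := by ring
      rw [h2] at h
      exact h1.trans h
    · intro h
      rw [sub_eq_zero] at h
      subst h
      have : ρ = 0 := by
        rw [hρ]
        exact Metric.infDist_zero_of_mem (hFL ha)
      exact hx.ne' this
    · intro h
      rw [sub_eq_zero] at h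
      subst h
      exact hD0.ne' (Metric.infDist_zero_of_mem ha')
    · exact sub_mem hb (hFL ha')
    · refine approx (F := (A k U : Set E)) (L := (A k V : Set E)) (ρ := ρ) hT.le
        (fun z hz => add_mem hz (hFL ha)) ?_ hxa.le
      intro β hβ
      rw [← dist_eq_norm]
      exact Metric.infDist_le_dist_of_mem hβ
    · refine approx (F := (A k U : Set E)) (L := (A k U : Set E)) (ρ := D) hT.le
        (fun z hz => add_mem hz ha') ?_ hba.le
      intro β hβ
      rw [← dist_eq_norm]
      exact Metric.infDist_le_dist_of_mem hβ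
    · intro i j
      rw [hQc]
      exact ((QF.coeff j).coeff i).2
    · rw [hQx]
      exact hne
    · rw [hQx, IsRoot.def, taylor_eval]
      have : y - a' + a' = y := by ring
      rw [this]
      exact hPy
    · intro i j hij
      rw [hQc, coeff_eq_zero_of_natDegree_lt]
      · rfl
      · exact lt_of_le_of_lt (natDegree_coeff_taylor_le R hRdeg aF' j) hij
    · refine (natDegree_map_le).trans ?_
      rw [hQF, natDegree_taylor, hR]
      exact natDegree_map_le
  have hlim : Filter.Tendsto (fun T : ℝ => T ^ N * ‖b - y‖) (nhdsWithin 1 (Set.Ioi 1))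
      (nhds ((1 : ℝ) ^ N * ‖b - y‖)) := by
    apply Filter.Tendsto.mono_left _ nhdsWithin_le_nhds
    exact Continuous.tendsto (by fun_prop) 1
  rw [one_pow, one_mul] at hlim
  refine ge_of_tendsto hlim ?_
  filter_upwards [self_mem_nhdsWithin] with T hT
  exact key T hT

end Pool.Agent.V1139.TD
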